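import Pool.Agent.W_156d3b_h39.Final

/-!
# n - m = o(log log n) for the solutions of n! = m! k!

Partial answer to Q1 of MP_156d3b_nt.  For every `ε > 0` only finitely many solutions of
`n! = m! k!`, `m > k ≥ 2`, satisfy `n - m ≥ ε log log n`.

Proof (method of Roth and Ridout for integer moving targets, from scratch): for every prime `p` some
`m + i_p`, `1 ≤ i_p ≤ n - m = O(log k)`, is divisible by `p ^ (k/(p-1) - O((log k)^2))`.  If
`n - m ≥ ε log log n`, then `log n ≤ C k`.  Suppose that this happens infinitely often; take a finite set
`S` of primes with `∑_{p ∈ S} log p/(p - 1) > 40 C` (the series diverges), `M = 8 |S|` solutions of rapidly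
increasing size, an auxiliary polynomial in `M` variables with small integer coefficients which vanishes to
index `M/4` at the `|S|` integer points `(-i_p^(1), ..., -i_p^(M))` (Siegel's lemma), and use Roth's lemma
(generalised Wronskians): a derivative of small order has at `(m_1, ..., m_M)` a nonzero integer value which
is divisible by a power of every `p ∈ S` that is too large.
-/

namespace Pool.Agent.Results.MP_156d3b_nt.GapLittleO

open Nat

/-- For every `ε > 0` there are only finitely many `(n, m, k)` with `m > k ≥ 2`, `n! = m! k!` and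
`n - m ≥ ε log log n`. -/
theorem result (ε : ℝ) (hε : 0 < ε) :
    {t : ℕ × ℕ × ℕ | 2 ≤ t.2.2 ∧ t.2.2 < t.2.1 ∧ t.1 ! = t.2.1 ! * t.2.2 ! ∧
      ε * Real.log (Real.log t.1) ≤ (t.1 : ℝ) - t.2.1}.Finite :=
  W156h39.main ε hε

end Pool.Agent.Results.MP_156d3b_nt.GapLittleO
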