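import Pool.Agent.W_156d3b_h46.MainP

namespace Pool.Agent.Results.MP_156d3b_nt.PolylogSolutions

/-- There is a constant `C` such that for all `x ≥ 2` the solutions `(n, m, k)` of `n! = m! k!` with `m > k ≥ 2`
and `k ≤ x` outside the trivial family `n = k!`, `m = k! - 1` are finite in number, and their number is at most
`C (log x)^4`. -/
theorem result : ∃ C : ℝ, ∀ x : ℕ, 2 ≤ x →
    {t : ℕ × ℕ × ℕ | ∃ n m k : ℕ, t = (n, m, k) ∧ 2 ≤ k ∧ k ≤ x ∧ k < m ∧
      Nat.factorial n = Nat.factorial m * Nat.factorial k ∧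
      ¬ (n = Nat.factorial k ∧ m = Nat.factorial k - 1)}.Finite ∧
    (Set.ncard {t : ℕ × ℕ × ℕ | ∃ n m k : ℕ, t = (n, m, k) ∧ 2 ≤ k ∧ k ≤ x ∧ k < m ∧
      Nat.factorial n = Nat.factorial m * Nat.factorial k ∧
      ¬ (n = Nat.factorial k ∧ m = Nat.factorial k - 1)} : ℝ) ≤ C * (Real.log x) ^ 4 := by
  obtain ⟨C, h⟩ := Sur46.final
  exact ⟨C, fun x hx => h x hx _ rfl⟩

end Pool.Agent.Results.MP_156d3b_nt.PolylogSolutions
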